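import Mathlib
import Pool.Agent.L7h47.DF.Stm
import Pool.Agent.Helper591.APRec

set_option autoImplicit false

/-! # Project DF, part DIV -/

namespace Pool.Agent.L7h72.DF

open Finset Pool.Agent.Helper591.APRec

theorem s_DIV : Pool.Agent.L7h47.DF.S_DIV := by
  classical
  intro q a hq ha B ε hε
  have : NeZero q := ⟨hq.ne'⟩
  have h := (not_summable_iff_tendsto_nat_atTop_of_nonneg (g_nonneg a)).1 (not_summable_g ha)
  obtain ⟨N, hN⟩ := (h.eventually_ge_atTop ((B : ℝ) + 1 - Real.log ε)).exists
  obtain ⟨U, hU⟩ : ∃ U, U = (range N).filter (fun u => u.Prime ∧ B < u ∧ (u : ZMod q) = a) := ⟨_, rfl⟩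
  have hU' : ∀ u ∈ U, u.Prime ∧ B < u ∧ (u : ZMod q) = a := fun u hu => by
    rw [hU] at hu
    exact (mem_filter.1 hu).2
  refine ⟨U, hU', ?_⟩
  have h1 : ∑ n ∈ range N, g a n ≤ ∑ u ∈ U, 1 / (u : ℝ) + (B + 1) := by
    rw [← sum_filter_add_sum_filter_not (range N) (fun n => B < n)]
    apply add_le_add
    · have e : U = ((range N).filter (fun n => B < n)).filter (fun u : ℕ => u.Prime ∧ (u : ZMod q) = a) := by
        rw [hU, filter_filter]
        apply filter_congr
        intro u _
        tauto
      rw [e, sum_filter (s := (range N).filter (fun n => B < n))]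
      apply le_of_eq
      apply sum_congr rfl
      intro u _
      unfold g
      rfl
    · have h2 : ∑ n ∈ (range N).filter (fun n => ¬ B < n), g a n ≤
          ∑ n ∈ (range N).filter (fun n => ¬ B < n), (1 : ℝ) := by
        apply sum_le_sum
        intro n _
        unfold g
        split_ifs with hc
        · have : (1 : ℝ) ≤ n := by exact_mod_cast hc.1.one_le
          rw [div_le_one (by linarith)]
          exact this
        · norm_num
      refine h2.trans ?_
      rw [sum_const, nsmul_eq_mul, mul_one]
      have h3 : ((range N).filter (fun n => ¬ B < n)).card ≤ B + 1 := by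
        have : (range N).filter (fun n => ¬ B < n) ⊆ range (B + 1) := by
          intro n hn
          rw [mem_filter] at hn
          rw [mem_range]
          omega
        have := card_le_card this
        rwa [card_range] at this
      exact_mod_cast h3
  have h4 : ∏ u ∈ U, (1 - 1 / (u : ℝ)) ≤ Real.exp (-∑ u ∈ U, 1 / (u : ℝ)) := by
    rw [← sum_neg_distrib, Real.exp_sum]
    apply prod_le_prod
    · intro u hu
      have : (1 : ℝ) ≤ u := by exact_mod_cast (hU' u hu).1.one_le
      rw [sub_nonneg, div_le_one (by linarith)]
      exact this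
    · intro u _
      have := Real.add_one_le_exp (-(1 / (u : ℝ)))
      linarith
  refine h4.trans ?_
  rw [← Real.exp_log hε]
  apply Real.exp_le_exp.2
  linarith

end Pool.Agent.L7h72.DF
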